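import Pool.Agent.TH783.IS.Main
import Pool.Agent.TH686.FO.Main

set_option autoImplicit false

/-!
Vaught's conjecture, perfect-set form, for the first-order theories of graphs without an induced
subgraph `H`: it holds if `H` is an induced subgraph of the path with four vertices, and it is the
full conjecture in all other cases.
-/

namespace Pool.Agent.Results.MP_5df2c5_lc.ForbiddenSubgraphs

open FirstOrder

/-- Vaught's conjecture, perfect-set form, for the theory `T` in the language `L` (the body of the
frozen statement): the models with universe `ℕ` fall into countably many isomorphism classes, or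
some continuous family of models, indexed by the Cantor space, consists of pairwise
non-isomorphic models. -/
def Dichotomy (L : FirstOrder.Language.{0, 0}) (T : L.Theory) : Prop :=
  (∃ g : ℕ → L.Structure ℕ, ∀ S : L.Structure ℕ,
      @FirstOrder.Language.Theory.Model L ℕ S T →
        ∃ n : ℕ, Nonempty (@FirstOrder.Language.Equiv L ℕ ℕ S (g n))) ∨
  (∃ f : (ℕ → Bool) → L.Structure ℕ,
      (∀ x : ℕ → Bool, @FirstOrder.Language.Theory.Model L ℕ (f x) T) ∧
      (∀ x y : ℕ → Bool,
          Nonempty (@FirstOrder.Language.Equiv L ℕ ℕ (f x) (f y)) → x = y) ∧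
      (∀ (n : ℕ) (R : L.Relations n) (a : Fin n → ℕ),
          IsClopen {x : ℕ → Bool | @FirstOrder.Language.Structure.RelMap L ℕ (f x) n R a}) ∧
      (∀ (n : ℕ) (F : L.Functions n) (a : Fin n → ℕ) (b : ℕ),
          IsOpen {x : ℕ → Bool | @FirstOrder.Language.Structure.funMap L ℕ (f x) n F a = b}))

/-- Vaught's conjecture for all first-order theories in all countable languages (the frozen
statement). -/
def FullConjecture : Prop :=
  ∀ L : FirstOrder.Language.{0, 0}, Countable L.Symbols → ∀ T : L.Theory, Dichotomy L T

/-- The structure `S` is a simple graph on `ℕ` (irreflexive and symmetric) with no induced subgraph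
isomorphic to `H`. -/
def GraphWithout {V : Type} (H : SimpleGraph V) (S : FirstOrder.Language.graph.Structure ℕ) : Prop :=
  ∃ G : SimpleGraph ℕ, (∀ u v, @FirstOrder.Language.Structure.RelMap _ ℕ S 2
    FirstOrder.Language.graphRel.adj ![u, v] ↔ G.Adj u v) ∧ IsEmpty (H ↪g G)

open Pool.Agent.W889.FO.StE (LG gd)
open Pool.Agent.W889.FO (Vaught VaughtF vaughtF_iff)
open Pool.Agent.TH686.FO
open Pool.Agent.TH783.IS

private theorem of_ifree {V : Type} {H : SimpleGraph V} {S : LG.Structure ℕ}
    (h : IFree H (bs S)) : GraphWithout H S := by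
  refine ⟨⟨fun u v => gd S u v, ⟨fun u v huv => ?_⟩, ⟨fun u hu => ?_⟩⟩, fun u v => Iff.rfl, ⟨fun e => ?_⟩⟩
  · exact (bs_iff _ _ _).1 (h.symm u v ((bs_iff _ _ _).2 huv))
  · have := h.irrefl u
    rw [(bs_iff _ _ _).2 hu] at this
    exact absurd this (by decide)
  · exact h.free ⟨e, e.injective, fun u v => (bs_iff _ _ _).trans e.map_adj_iff⟩

private theorem to_ifree {V : Type} {H : SimpleGraph V} {S : LG.Structure ℕ}
    (h : GraphWithout H S) : IFree H (bs S) := by
  obtain ⟨G, hG, he⟩ := h
  refine ⟨fun u => ?_, fun u v huv => ?_, ?_⟩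
  · rw [Bool.eq_false_iff, ne_eq, bs_iff]
    exact fun hu => G.loopless.irrefl u ((hG u u).1 hu)
  · rw [bs_iff] at huv ⊢
    exact (hG v u).2 (G.symm.symm _ _ ((hG u v).1 huv))
  · rintro ⟨f, hf1, hf2⟩
    exact he.false ⟨⟨f, hf1⟩, fun {u v} => ((hG _ _).symm.trans (bs_iff _ _ _).symm).trans (hf2 u v)⟩

private theorem comp_ifree {V : Type} {H : SimpleGraph V}
    (h : ¬ Nonempty (H ↪g SimpleGraph.pathGraph 4)) : Comp (fun S => IFree H (bs S)) := by
  by_cases h1 : Tr H
  · exact fun hV T => red_bip (fun T' hT' => hV T' fun S hS => tr_free h1 _ (hT' S hS)) T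
  by_cases h2 : Co H
  · exact fun hV T => red_cobip (fun T' hT' => hV T' fun S hS => co_free h2 _ (hT' S hS)) T
  by_cases h3 : Sp H
  · exact absurd (emb h1 h2 h3) h
  · exact fun hV T => red_split (fun T' hT' => hV T' fun S hS => sp_free h3 _ (hT' S hS)) T

/-- **Theorem.** Let `H` be a graph, finite or infinite. If `H` is isomorphic to an induced subgraph
of the path with four vertices, then Vaught's conjecture, perfect-set form, holds for every
first-order theory all of whose models on `ℕ` are graphs without an induced subgraph isomorphic to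
`H`. Otherwise Vaught's conjecture, perfect-set form, for the complete theories of this kind is
equivalent to Vaught's conjecture, perfect-set form, for all first-order theories in all countable
languages. -/
theorem result {V : Type} (H : SimpleGraph V) :
    (Nonempty (H ↪g SimpleGraph.pathGraph 4) →
      ∀ T : FirstOrder.Language.graph.Theory,
        (∀ S : FirstOrder.Language.graph.Structure ℕ,
          @FirstOrder.Language.Theory.Model _ ℕ S T → GraphWithout H S) →
        Dichotomy FirstOrder.Language.graph T) ∧
    (¬ Nonempty (H ↪g SimpleGraph.pathGraph 4) →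
      ((∀ T : FirstOrder.Language.graph.Theory, T.IsComplete →
        (∀ S : FirstOrder.Language.graph.Structure ℕ,
          @FirstOrder.Language.Theory.Model _ ℕ S T → GraphWithout H S) →
        Dichotomy FirstOrder.Language.graph T) ↔ FullConjecture)) := by
  refine ⟨fun h T hT => ?_, fun h => ⟨fun hV L hL T => ?_,
    fun hV T _ _ => hV _ countable_LGs T⟩⟩
  · exact (vaughtF_iff LG T).2 (pos_fo (pos h) T fun S hS => to_ifree (hT S hS))
  · exact (comp_ifree h).full (fun T hc hT => hV T hc fun S hS => of_ifree (hT S hS)) L hL T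

end Pool.Agent.Results.MP_5df2c5_lc.ForbiddenSubgraphs
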