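import Pool.Agent.V11227.VB.Ord

set_option autoImplicit false

/-!
Vaught's conjecture, perfect-set form, for the first-order theories of partial orders without a
suborder `P`: for connected `P`, it holds if `P` embeds in the order N, and it is the full
conjecture in all other cases.
-/

namespace Pool.Agent.Results.MP_5df2c5_lc.ForbiddenSuborders

open FirstOrder

/-- Vaught's conjecture, perfect-set form, for the theory `T` in the language `L` (the body of the
frozen statement): the models with universe `ℕ` fall into countably many isomorphism classes, or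
some continuous family of models, indexed by the Cantor space, consists of pairwise
non-isomorphic models. -/
def Dichotomy (L : FirstOrder.Language.{0, 0}) (T : L.Theory) : Prop :=
  (∃ g : ℕ → L.Structure ℕ, ∀ S : L.Structure ℕ,
      @FirstOrder.Language.Theory.Model L ℕ S T →
        ∃ n : ℕ, Nonempty (@FirstOrder.Language.Equiv L ℕ ℕ S (g n))) ∨
  (∃ f : (ℕ → Bool) → L.Structure ℕ,
      (∀ x : ℕ → Bool, @FirstOrder.Language.Theory.Model L ℕ (f x) T) ∧
      (∀ x y : ℕ → Bool,
          Nonempty (@FirstOrder.Language.Equiv L ℕ ℕ (f x) (f y)) → x = y) ∧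
      (∀ (n : ℕ) (R : L.Relations n) (a : Fin n → ℕ),
          IsClopen {x : ℕ → Bool | @FirstOrder.Language.Structure.RelMap L ℕ (f x) n R a}) ∧
      (∀ (n : ℕ) (F : L.Functions n) (a : Fin n → ℕ) (b : ℕ),
          IsOpen {x : ℕ → Bool | @FirstOrder.Language.Structure.funMap L ℕ (f x) n F a = b}))

/-- Vaught's conjecture for all first-order theories in all countable languages (the frozen
statement). -/
def FullConjecture : Prop :=
  ∀ L : FirstOrder.Language.{0, 0}, Countable L.Symbols → ∀ T : L.Theory, Dichotomy L T

/-- The language with one binary relation symbol (and no other symbols): this is Mathlib's language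
of graphs, here used for orders. -/
abbrev L1 : FirstOrder.Language.{0, 0} := FirstOrder.Language.graph

/-- The binary relation of the structure `S`. -/
def rel (S : L1.Structure ℕ) (u v : ℕ) : Prop :=
  @FirstOrder.Language.Structure.RelMap L1 ℕ S 2 FirstOrder.Language.graphRel.adj ![u, v]

/-- `r` is a strict partial order. -/
structure StrictPartialOrder {V : Type} (r : V → V → Prop) : Prop where
  irrefl : ∀ u, ¬ r u u
  trans : ∀ u v w, r u v → r v w → r u w

/-- The order N on `{0, 1, 2, 3}`: `0 < 1`, `2 < 1`, `2 < 3`, and no other relations. -/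
def N (i j : Fin 4) : Prop := (i = 0 ∧ j = 1) ∨ (i = 2 ∧ j = 1) ∨ (i = 2 ∧ j = 3)

/-- The order `r` is isomorphic to a suborder (with the induced order) of the order `q`. -/
def EmbedsIn {V W : Type} (r : V → V → Prop) (q : W → W → Prop) : Prop :=
  ∃ f : V → W, Function.Injective f ∧ ∀ u v, q (f u) (f v) ↔ r u v

/-- The comparability graph of `r` is connected. -/
def Connected {V : Type} (r : V → V → Prop) : Prop :=
  ∀ u v, Relation.ReflTransGen (fun x y => r x y ∨ r y x) u v

/-- Any number of isolated elements added to some suborder of N: there is a set `S` of elements,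
forming a suborder isomorphic to a suborder of N, such that the elements outside `S` are
incomparable to all other elements. -/
def NWithIsolated {V : Type} (r : V → V → Prop) : Prop :=
  ∃ S : Set V, (∀ u v, r u v → u ∈ S ∧ v ∈ S) ∧
    ∃ f : V → Fin 4, Set.InjOn f S ∧ ∀ u ∈ S, ∀ v ∈ S, r u v ↔ N (f u) (f v)

/-- The theory `T` is a theory of strict partial orders without suborder `r`: so are all its models
with universe `ℕ`. -/
def OrdersWithout {V : Type} (r : V → V → Prop) (T : L1.Theory) : Prop :=
  ∀ S : L1.Structure ℕ, @FirstOrder.Language.Theory.Model L1 ℕ S T →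
    StrictPartialOrder (rel S) ∧ ¬ EmbedsIn r (rel S)

/-- **Theorem.** Let `r` be a strict partial order, finite or infinite. (1) If `r` embeds in N, then
Vaught's conjecture, perfect-set form, holds for all first-order theories of partial orders without
suborder `r`. (2) If `r` is not obtained from a suborder of N by adding isolated elements, then
Vaught's conjecture, perfect-set form, for the complete theories of partial orders without suborder
`r` is equivalent to Vaught's conjecture, perfect-set form, for all first-order theories in all
countable languages. (3) If `r` is connected then one of the two cases applies. -/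
theorem result {V : Type} (r : V → V → Prop) (hr : StrictPartialOrder r) :
    (EmbedsIn r N → ∀ T : L1.Theory, OrdersWithout r T → Dichotomy L1 T) ∧
    (¬ NWithIsolated r →
      ((∀ T : L1.Theory, T.IsComplete → OrdersWithout r T → Dichotomy L1 T) ↔ FullConjecture)) ∧
    (Connected r → EmbedsIn r N ∨ ¬ NWithIsolated r) := by
  have hr' : Pool.Agent.TH686.FS.PO r := ⟨hr.irrefl, hr.trans⟩
  refine ⟨fun h T hT => ?_, fun h => ⟨fun hV L hL T => ?_,
    fun hV T _ _ => hV _ Pool.Agent.TH686.FO.countable_LGs T⟩, fun h => ?_⟩
  · obtain ⟨f, hf1, hf2⟩ := h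
    have he : Pool.Agent.TH686.FS.EmbN r := ⟨f, hf1, fun u v => (hf2 u v).symm⟩
    refine (Pool.Agent.W889.FO.vaughtF_iff L1 T).2
      (Pool.Agent.TH686.FO.pos_fo Pool.Agent.V11227.VB.vc_n T fun S hS => ?_)
    obtain ⟨h1, h2⟩ := hT S hS
    refine Pool.Agent.V11227.VB.nfree_of he ?_
    rw [Pool.Agent.TH686.FO.bs_fun]
    exact ⟨h1.irrefl, h1.trans, h2⟩
  · refine (Pool.Agent.V11227.VB.comp_rfree hr' h).full (fun T hc hT => hV T hc fun S hS => ?_) L hL T
    have h1 := hT S hS
    exact ⟨⟨h1.irrefl, h1.trans⟩, h1.free⟩
  · by_cases hN : NWithIsolated r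
    · left
      obtain ⟨f, hf1, hf2⟩ := Pool.Agent.TH686.FS.emb_of_conn hN h
      exact ⟨f, hf1, fun u v => (hf2 u v).symm⟩
    · exact Or.inr hN

end Pool.Agent.Results.MP_5df2c5_lc.ForbiddenSuborders
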