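import Pool.Agent.TH783.MD.Emb
import Pool.Agent.TH783.FC.Itp

set_option autoImplicit false

/-!
Vaught's conjecture, perfect-set form, for theories of graphs from a class of finite graphs which
contains the patterns that characterise the hereditary graph classes which are not monadically
dependent: it is the full conjecture.
-/

namespace Pool.Agent.Results.MP_5df2c5_lc.MonadicIndependence

open FirstOrder

/-- Vaught's conjecture, perfect-set form, for the theory `T` in the language `L` (the body of the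
frozen statement): the models with universe `ℕ` fall into countably many isomorphism classes, or
some continuous family of models, indexed by the Cantor space, consists of pairwise
non-isomorphic models. -/
def Dichotomy (L : FirstOrder.Language.{0, 0}) (T : L.Theory) : Prop :=
  (∃ g : ℕ → L.Structure ℕ, ∀ S : L.Structure ℕ,
      @FirstOrder.Language.Theory.Model L ℕ S T →
        ∃ n : ℕ, Nonempty (@FirstOrder.Language.Equiv L ℕ ℕ S (g n))) ∨
  (∃ f : (ℕ → Bool) → L.Structure ℕ,
      (∀ x : ℕ → Bool, @FirstOrder.Language.Theory.Model L ℕ (f x) T) ∧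
      (∀ x y : ℕ → Bool,
          Nonempty (@FirstOrder.Language.Equiv L ℕ ℕ (f x) (f y)) → x = y) ∧
      (∀ (n : ℕ) (R : L.Relations n) (a : Fin n → ℕ),
          IsClopen {x : ℕ → Bool | @FirstOrder.Language.Structure.RelMap L ℕ (f x) n R a}) ∧
      (∀ (n : ℕ) (F : L.Functions n) (a : Fin n → ℕ) (b : ℕ),
          IsOpen {x : ℕ → Bool | @FirstOrder.Language.Structure.funMap L ℕ (f x) n F a = b}))

/-- Vaught's conjecture for all first-order theories in all countable languages (the frozen
statement). -/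
def FullConjecture : Prop :=
  ∀ L : FirstOrder.Language.{0, 0}, Countable L.Symbols → ∀ T : L.Theory, Dichotomy L T

/-- Vertices of the crossings: rows `row i`, columns `col j`, and the `r` inner vertices of a path
from the row `i` to the column `j`, for all `i` and `j` in `ι`. -/
inductive Vertex (ι : Type) (r : ℕ) : Type
  | row (i : ι) : Vertex ι r
  | col (j : ι) : Vertex ι r
  | path (i j : ι) (t : Fin r) : Vertex ι r

/-- The three kinds of crossings. -/
inductive Kind : Type
  | star
  | clique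
  | half

namespace Vertex

variable {ι : Type} {r : ℕ}

/-- The layers: all rows; for each `t`, the vertices number `t` of all paths; all columns. -/
def layer : Vertex ι r → Fin (r + 2)
  | row _ => 0
  | path _ _ t => ⟨t + 1, by have := t.2; omega⟩
  | col _ => Fin.last (r + 1)

/-- The edges, in one direction. In the star crossing the paths join the row `i` to the column `j`
(so it is the `r`-subdivision of a complete bipartite graph). In the clique crossing, moreover, the
neighbours of every row and the neighbours of every column form a clique. In the half-graph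
crossing the row `i` is joined to the first vertices of all the paths of the rows `i' ≥ i`, and the
column `j'` to the last vertices of all the paths of the columns `j ≥ j'`. -/
def edge [LinearOrder ι] : Kind → Vertex ι r → Vertex ι r → Prop
  | Kind.half, row i, path i' _ t => i ≤ i' ∧ (t : ℕ) = 0
  | _, row i, path i' _ t => i = i' ∧ (t : ℕ) = 0
  | Kind.clique, path i j t, path i' j' t' => (i = i' ∧ j = j' ∧ (t' : ℕ) = t + 1) ∨
      (i = i' ∧ (t : ℕ) = 0 ∧ (t' : ℕ) = 0) ∨ (j = j' ∧ (t : ℕ) + 1 = r ∧ (t' : ℕ) + 1 = r)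
  | _, path i j t, path i' j' t' => i = i' ∧ j = j' ∧ (t' : ℕ) = t + 1
  | Kind.half, path _ j t, col j' => j' ≤ j ∧ (t : ℕ) + 1 = r
  | _, path _ j t, col j' => j = j' ∧ (t : ℕ) + 1 = r
  | _, _, _ => False

end Vertex

/-- The `r`-crossing of kind `k` over `ι`, flipped: adjacency is complemented between the vertices
of layers `a` and `b` (or within a layer `a = b`) if the pair of `a` and `b` is in `F`. -/
def crossing (ι : Type) [LinearOrder ι] (k : Kind) (r : ℕ) (F : Set (Sym2 (Fin (r + 2)))) :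
    SimpleGraph (Vertex ι r) where
  Adj u v := u ≠ v ∧ ¬ ((Vertex.edge k u v ∨ Vertex.edge k v u) ↔ s(u.layer, v.layer) ∈ F)
  symm := ⟨by
    rintro u v ⟨h1, h2⟩
    exact ⟨h1.symm, fun h => h2 (by rw [Sym2.eq_swap, ← h, or_comm])⟩⟩
  loopless := ⟨fun u h => h.1 rfl⟩

/-- The comparability grid over `ι`. -/
def grid (ι : Type) [LinearOrder ι] : SimpleGraph (ι × ι) where
  Adj u v := u ≠ v ∧ (u.1 = v.1 ∨ u.2 = v.2 ∨ (u.1 < v.1 ↔ u.2 < v.2))
  symm := ⟨by
    rintro u v ⟨h1, h2⟩
    refine ⟨h1.symm, ?_⟩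
    rcases h2 with h2 | h2 | h2
    · exact Or.inl h2.symm
    · exact Or.inr (Or.inl h2.symm)
    · by_cases e1 : v.1 = u.1
      · exact Or.inl e1
      · by_cases e2 : v.2 = u.2
        · exact Or.inr (Or.inl e2)
        · right; right
          constructor
          · intro h3
            by_contra h4
            have h5 : u.2 < v.2 := lt_of_le_of_ne (not_lt.1 h4) (Ne.symm e2)
            exact absurd (h2.2 h5) (not_lt.2 h3.le)
          · intro h3
            by_contra h4
            have h5 : u.1 < v.1 := lt_of_le_of_ne (not_lt.1 h4) (Ne.symm e1)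
            exact absurd (h2.1 h5) (not_lt.2 h3.le)⟩
  loopless := ⟨fun u h => h.1 rfl⟩

/-- Every finite graph which is isomorphic to an induced subgraph of `G` belongs to the class `C` of
finite graphs. -/
def LocallyIn (C : ∀ n : ℕ, SimpleGraph (Fin n) → Prop) {V : Type} (G : SimpleGraph V) : Prop :=
  ∀ (n : ℕ) (H : SimpleGraph (Fin n)), Nonempty (H ↪g G) → C n H

/-- For some `r ≥ 1` and for every `n` the class `C` contains, with all its induced subgraphs, some
flipped star, clique or half-graph `r`-crossing of order `n`, or the comparability grid of order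
`n`. (Dreier, Mählmann and Toruńczyk have shown that a class of finite graphs closed under induced
subgraphs has this property if and only if it is not monadically dependent; this is not used.) -/
def MonadicallyIndependent (C : ∀ n : ℕ, SimpleGraph (Fin n) → Prop) : Prop :=
  ∃ r, 1 ≤ r ∧ ∀ n : ℕ, (∃ (k : Kind) (F : Set (Sym2 (Fin (r + 2)))),
    LocallyIn C (crossing (Fin n) k r F)) ∨ LocallyIn C (grid (Fin n))

/-- Vaught's conjecture for the complete theories of graphs which are locally in `C`. -/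
def ConjectureFor (C : ∀ n : ℕ, SimpleGraph (Fin n) → Prop) : Prop :=
  ∀ T : FirstOrder.Language.graph.Theory, T.IsComplete →
    (∀ S : FirstOrder.Language.graph.Structure ℕ, @FirstOrder.Language.Theory.Model _ ℕ S T →
      ∃ G : SimpleGraph ℕ, (∀ u v, @FirstOrder.Language.Structure.RelMap _ ℕ S 2
        FirstOrder.Language.graphRel.adj ![u, v] ↔ G.Adj u v) ∧ LocallyIn C G) →
    Dichotomy FirstOrder.Language.graph T

/-! ### Proofs -/

/-- the map of vertices given by a map of the indices -/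
private def mapV {ι κ : Type} {r : ℕ} (ψ : ι → κ) : Vertex ι r → Vertex κ r
  | .row i => .row (ψ i)
  | .col j => .col (ψ j)
  | .path i j t => .path (ψ i) (ψ j) t

/-- the indices of a vertex -/
private def idx {ι : Type} {r : ℕ} : Vertex ι r → Set ι
  | .row i => {i}
  | .col j => {j}
  | .path i j _ => {i, j}

private theorem layer_mapV {ι κ : Type} {r : ℕ} (ψ : ι → κ) (u : Vertex ι r) :
    (mapV ψ u).layer = u.layer := by
  cases u <;> rfl

section mp

variable {ι κ : Type} [LinearOrder ι] [LinearOrder κ] {r : ℕ} {I : Set ι} {ψ : ι → κ}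

private theorem mapV_inj (h : StrictMonoOn ψ I) {u v : Vertex ι r} (hu : idx u ⊆ I)
    (hv : idx v ⊆ I) (he : mapV ψ u = mapV ψ v) : u = v := by
  have hi := h.injOn
  cases u <;> cases v <;> simp only [mapV, Vertex.row.injEq, Vertex.col.injEq,
    Vertex.path.injEq, reduceCtorEq, idx, Set.singleton_subset_iff, Set.insert_subset_iff] at he hu hv ⊢
  · exact hi hu hv he
  · exact hi hu hv he
  · exact ⟨hi hu.1 hv.1 he.1, hi hu.2 hv.2 he.2.1, he.2.2⟩

private theorem edge_mapV (h : StrictMonoOn ψ I) (k : Kind) {u v : Vertex ι r} (hu : idx u ⊆ I)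
    (hv : idx v ⊆ I) : Vertex.edge k (mapV ψ u) (mapV ψ v) ↔ Vertex.edge k u v := by
  have hi : ∀ {a b : ι}, a ∈ I → b ∈ I → (ψ a = ψ b ↔ a = b) := fun ha hb => h.injOn.eq_iff ha hb
  have hl : ∀ {a b : ι}, a ∈ I → b ∈ I → (ψ a ≤ ψ b ↔ a ≤ b) := fun ha hb => h.le_iff_le ha hb
  cases k <;> cases u <;> cases v <;> simp only [mapV, Vertex.edge, idx,
    Set.singleton_subset_iff, Set.insert_subset_iff] at hu hv ⊢
  · rw [hi hu hv.1]
  · rw [hi hu.2 hv]
  · rw [hi hu.1 hv.1, hi hu.2 hv.2]
  · rw [hi hu hv.1]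
  · rw [hi hu.2 hv]
  · rw [hi hu.1 hv.1, hi hu.2 hv.2]
  · rw [hl hu hv.1]
  · rw [hl hv hu.2]
  · rw [hi hu.1 hv.1, hi hu.2 hv.2]

end mp

/-- finite sets of indices -/
private theorem exists_psi {ι : Type} [LinearOrder ι] (I : Finset ι) {m : ℕ} (hm : I.card + 1 ≤ m) :
    ∃ ψ : ι → Fin m, StrictMonoOn ψ (I : Set ι) := by
  refine ⟨fun i => ⟨(I.filter (· < i)).card, ?_⟩, ?_⟩
  · have := Finset.card_filter_le I (· < i)
    omega
  · intro a ha b hb hab
    show (I.filter (· < a)).card < (I.filter (· < b)).card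
    refine Finset.card_lt_card ⟨?_, ?_⟩
    · intro x hx
      rw [Finset.mem_filter] at hx ⊢
      exact ⟨hx.1, hx.2.trans hab⟩
    · intro hs
      have h1 : a ∈ I.filter (· < b) := Finset.mem_filter.2 ⟨ha, hab⟩
      have h2 := hs h1
      rw [Finset.mem_filter] at h2
      exact lt_irrefl a h2.2

private theorem up_crossing {C : ∀ n : ℕ, SimpleGraph (Fin n) → Prop} {k : Kind} {r : ℕ}
    {F : Set (Sym2 (Fin (r + 2)))}
    (h : ∀ n : ℕ, ∃ m, n ≤ m ∧ LocallyIn C (crossing (Fin m) k r F)) (ι : Type) [LinearOrder ι] :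
    LocallyIn C (crossing ι k r F) := by
  classical
  rintro n H ⟨e⟩
  have hfin : (⋃ u : Fin n, idx (e u)).Finite := by
    refine Set.finite_iUnion fun u => ?_
    cases e u <;> simp [idx]
  obtain ⟨m, hm, hC⟩ := h (hfin.toFinset.card + 1)
  obtain ⟨ψ, hψ⟩ := exists_psi hfin.toFinset hm
  rw [hfin.coe_toFinset] at hψ
  have hs : ∀ u, idx (e u) ⊆ ⋃ u : Fin n, idx (e u) := fun u => Set.subset_iUnion (fun u : Fin n => idx (e u)) u
  refine hC n H ⟨⟨⟨fun u => mapV ψ (e u), fun u v huv => e.injective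
    (mapV_inj hψ (hs u) (hs v) huv)⟩, ?_⟩⟩
  intro u v
  show (mapV ψ (e u) ≠ mapV ψ (e v) ∧ ¬ ((Vertex.edge k (mapV ψ (e u)) (mapV ψ (e v)) ∨
    Vertex.edge k (mapV ψ (e v)) (mapV ψ (e u))) ↔
      s((mapV ψ (e u)).layer, (mapV ψ (e v)).layer) ∈ F)) ↔ _
  rw [← e.map_adj_iff]
  show _ ↔ (e u ≠ e v ∧ ¬ ((Vertex.edge k (e u) (e v) ∨ Vertex.edge k (e v) (e u)) ↔
    s((e u).layer, (e v).layer) ∈ F))
  rw [edge_mapV hψ k (hs u) (hs v), edge_mapV hψ k (hs v) (hs u), layer_mapV, layer_mapV]
  refine and_congr_left fun _ => not_congr ⟨fun h => mapV_inj hψ (hs u) (hs v) h, fun h => by rw [h]⟩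

private theorem up_grid {C : ∀ n : ℕ, SimpleGraph (Fin n) → Prop}
    (h : ∀ n : ℕ, ∃ m, n ≤ m ∧ LocallyIn C (grid (Fin m))) (ι : Type) [LinearOrder ι] :
    LocallyIn C (grid ι) := by
  classical
  rintro n H ⟨e⟩
  have hfin : (Set.range (fun u : Fin n => (e u).1) ∪ Set.range (fun u : Fin n => (e u).2)).Finite :=
    (Set.finite_range _).union (Set.finite_range _)
  obtain ⟨m, hm, hC⟩ := h (hfin.toFinset.card + 1)
  obtain ⟨ψ, hψ⟩ := exists_psi hfin.toFinset hm
  rw [hfin.coe_toFinset] at hψ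
  have h1 : ∀ u : Fin n, (e u).1 ∈ Set.range (fun u : Fin n => (e u).1) ∪
      Set.range (fun u : Fin n => (e u).2) := fun u => Or.inl ⟨u, rfl⟩
  have h2 : ∀ u : Fin n, (e u).2 ∈ Set.range (fun u : Fin n => (e u).1) ∪
      Set.range (fun u : Fin n => (e u).2) := fun u => Or.inr ⟨u, rfl⟩
  have hi := hψ.injOn
  have key : ∀ u v : Fin n, ((ψ (e u).1, ψ (e u).2) : Fin m × Fin m) = (ψ (e v).1, ψ (e v).2) ↔
      e u = e v := by
    intro u v
    constructor
    · intro h
      rw [Prod.mk.injEq] at h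
      exact Prod.ext (hi (h1 u) (h1 v) h.1) (hi (h2 u) (h2 v) h.2)
    · intro h
      rw [h]
  refine hC n H ⟨⟨⟨fun u => (ψ (e u).1, ψ (e u).2), fun u v huv => e.injective
    ((key u v).1 huv)⟩, ?_⟩⟩
  intro u v
  show ((ψ (e u).1, ψ (e u).2) ≠ (ψ (e v).1, ψ (e v).2) ∧ (ψ (e u).1 = ψ (e v).1 ∨
    ψ (e u).2 = ψ (e v).2 ∨ (ψ (e u).1 < ψ (e v).1 ↔ ψ (e u).2 < ψ (e v).2))) ↔ _
  rw [← e.map_adj_iff]
  show _ ↔ (e u ≠ e v ∧ ((e u).1 = (e v).1 ∨ (e u).2 = (e v).2 ∨
    ((e u).1 < (e v).1 ↔ (e u).2 < (e v).2)))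
  rw [hi.eq_iff (h1 u) (h1 v), hi.eq_iff (h2 u) (h2 v), hψ.lt_iff_lt (h1 u) (h1 v),
    hψ.lt_iff_lt (h2 u) (h2 v), ne_eq, ne_eq, key]

/-- the pigeonhole principle -/
private theorem pigeon {C : ∀ n : ℕ, SimpleGraph (Fin n) → Prop} {r : ℕ}
    (h : ∀ n : ℕ, (∃ (k : Kind) (F : Set (Sym2 (Fin (r + 2)))),
      LocallyIn C (crossing (Fin n) k r F)) ∨ LocallyIn C (grid (Fin n))) :
    (∃ (k : Kind) (F : Set (Sym2 (Fin (r + 2)))), ∀ (ι : Type) [LinearOrder ι],
      LocallyIn C (crossing ι k r F)) ∨ ∀ (ι : Type) [LinearOrder ι], LocallyIn C (grid ι) := by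
  classical
  have hk : Finite Kind := by
    refine Finite.of_surjective (fun i : Fin 3 => if i = 0 then Kind.star else
      if i = 1 then Kind.clique else Kind.half) fun k => ?_
    cases k
    · exact ⟨0, rfl⟩
    · exact ⟨1, rfl⟩
    · exact ⟨2, rfl⟩
  have h1 : ∀ n : ℕ, ∃ o : Option (Kind × Set (Sym2 (Fin (r + 2)))),
      match o with
      | some (k, F) => LocallyIn C (crossing (Fin n) k r F)
      | none => LocallyIn C (grid (Fin n)) := by
    intro n
    rcases h n with ⟨k, F, h2⟩ | h2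
    · exact ⟨some (k, F), h2⟩
    · exact ⟨none, h2⟩
  choose o ho using h1
  obtain ⟨p, hp⟩ := Finite.exists_infinite_fiber o
  have h2 : ∀ n : ℕ, ∃ m, n ≤ m ∧ o m = p := by
    intro n
    obtain ⟨m, hm, hm'⟩ := (Set.infinite_coe_iff.1 hp).exists_gt n
    exact ⟨m, hm'.le, hm⟩
  cases p with
  | none =>
    right
    refine up_grid fun n => ?_
    obtain ⟨m, hm, hm'⟩ := h2 n
    have := ho m
    rw [hm'] at this
    exact ⟨m, hm, this⟩
  | some p =>
    left
    refine ⟨p.1, p.2, up_crossing fun n => ?_⟩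
    obtain ⟨m, hm, hm'⟩ := h2 n
    have := ho m
    rw [hm'] at this
    exact ⟨m, hm, this⟩

/-- the flip as a relation of natural numbers -/
private def fl {r : ℕ} (F : Set (Sym2 (Fin (r + 2)))) (a b : ℕ) : Prop :=
  ∃ (h : a < r + 2) (h' : b < r + 2), s((⟨a, h⟩ : Fin (r + 2)), ⟨b, h'⟩) ∈ F

private theorem fl_symm {r : ℕ} (F : Set (Sym2 (Fin (r + 2)))) (a b : ℕ) (h : fl F a b) :
    fl F b a := by
  obtain ⟨h1, h2, h3⟩ := h
  exact ⟨h2, h1, by rwa [Sym2.eq_swap]⟩

private theorem fl_iff {r : ℕ} (F : Set (Sym2 (Fin (r + 2)))) (a b : Fin (r + 2)) :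
    fl F a b ↔ s(a, b) ∈ F :=
  ⟨fun ⟨_, _, h⟩ => h, fun h => ⟨a.2, b.2, h⟩⟩

/-- graphs that embed in a graph which is locally in `C` -/
private theorem locally_of {C : ∀ n : ℕ, SimpleGraph (Fin n) → Prop} {V : Type}
    {G : SimpleGraph V} (hG : LocallyIn C G) {R : ℕ → ℕ → Prop} (g : ℕ → V)
    (hg : Function.Injective g) (h : ∀ u v, R u v ↔ G.Adj (g u) (g v)) :
    ∃ G' : SimpleGraph ℕ, (∀ u v, R u v ↔ G'.Adj u v) ∧ LocallyIn C G' := by
  refine ⟨G.comap g, fun u v => by rw [h]; rfl, fun n H ⟨e⟩ => ?_⟩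
  exact hG n H ⟨e.trans ⟨⟨g, hg⟩, Iff.rfl⟩⟩

/-- the vertices -/
private def v1 {r : ℕ} : Pool.Agent.TH783.FC.Vx r → Vertex ℕ r
  | .row i => .row i
  | .col j => .col j
  | .pt i j t => .path i j t

private theorem v1_inj {r : ℕ} : Function.Injective (v1 (r := r)) := by
  intro u v h
  cases u <;> cases v <;> simp_all [v1]

private theorem v1_layer {r : ℕ} (u : Pool.Agent.TH783.FC.Vx r) : ((v1 u).layer : ℕ) = u.lay := by
  cases u <;> rfl

private theorem v1_star {r : ℕ} (u v : Pool.Agent.TH783.FC.Vx r) :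
    Vertex.edge Kind.star (v1 u) (v1 v) ↔ Pool.Agent.TH783.FC.Vx.edge false u v := by
  cases u <;> cases v <;> simp [v1, Vertex.edge, Pool.Agent.TH783.FC.Vx.edge]

private theorem v1_clique {r : ℕ} (u v : Pool.Agent.TH783.FC.Vx r) :
    Vertex.edge Kind.clique (v1 u) (v1 v) ↔ Pool.Agent.TH783.FC.Vx.edge true u v := by
  cases u <;> cases v <;> simp [v1, Vertex.edge, Pool.Agent.TH783.FC.Vx.edge]

/-- the vertices -/
private def v2 {r : ℕ} : Pool.Agent.TH783.MD.Vx ℚ r → Vertex ℚ r
  | .row i => .row i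
  | .col j => .col j
  | .pt i j t => .path i j t

private theorem v2_inj {r : ℕ} : Function.Injective (v2 (r := r)) := by
  intro u v h
  cases u <;> cases v <;> simp_all [v2]

private theorem v2_layer {r : ℕ} (u : Pool.Agent.TH783.MD.Vx ℚ r) :
    ((v2 u).layer : ℕ) = u.lay := by
  cases u <;> rfl

private theorem v2_half {r : ℕ} (u v : Pool.Agent.TH783.MD.Vx ℚ r) :
    Vertex.edge Kind.half (v2 u) (v2 v) ↔ Pool.Agent.TH783.MD.he u v := by
  cases u <;> cases v <;> simp [v2, Vertex.edge, Pool.Agent.TH783.MD.he]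

/-- **Theorem.** Let `C` be a class of finite graphs which contains, for some `r ≥ 1` and every `n`,
a flipped star, clique or half-graph `r`-crossing of order `n` or the comparability grid of order
`n` (with all their induced subgraphs); by the theorem of Dreier, Mählmann and Toruńczyk these are
the classes closed under induced subgraphs that are not monadically dependent. Then Vaught's
conjecture, perfect-set form, for the complete first-order theories of graphs whose finite induced
subgraphs are in `C` is equivalent to Vaught's conjecture, perfect-set form, for all first-order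
theories in all countable languages. -/
theorem result (C : ∀ n : ℕ, SimpleGraph (Fin n) → Prop) (hC : MonadicallyIndependent C) :
    ConjectureFor C ↔ FullConjecture := by
  refine ⟨fun h => ?_, fun h T _ _ => h _ Pool.Agent.TH686.FO.countable_LGs T⟩
  obtain ⟨r, hr, h1⟩ := hC
  rcases pigeon h1 with ⟨k, F, hk⟩ | hg
  · cases k with
    | star =>
      intro L hL T
      refine Pool.Agent.TH783.FC.main (r := r) (s := false) (f := fl F) hr (fl_symm F)
        (fun T' hc hT' => h T' hc fun S hS => ?_) L hL T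
      obtain ⟨g, hg1, hg2⟩ := hT' S hS
      refine locally_of (hk ℕ) (fun u => v1 (g u)) (v1_inj.comp hg1) fun u v => ?_
      refine (hg2 u v).trans ?_
      show _ ↔ (v1 (g u) ≠ v1 (g v) ∧ ¬ _)
      rw [v1_star, v1_star, v1_inj.ne_iff, ← fl_iff, v1_layer, v1_layer]
      exact Iff.rfl
    | clique =>
      intro L hL T
      refine Pool.Agent.TH783.FC.main (r := r) (s := true) (f := fl F) hr (fl_symm F)
        (fun T' hc hT' => h T' hc fun S hS => ?_) L hL T
      obtain ⟨g, hg1, hg2⟩ := hT' S hS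
      refine locally_of (hk ℕ) (fun u => v1 (g u)) (v1_inj.comp hg1) fun u v => ?_
      refine (hg2 u v).trans ?_
      show _ ↔ (v1 (g u) ≠ v1 (g v) ∧ ¬ _)
      rw [v1_clique, v1_clique, v1_inj.ne_iff, ← fl_iff, v1_layer, v1_layer]
      exact Iff.rfl
    | half =>
      intro L hL T
      refine Pool.Agent.TH783.MD.main (r := r) (s := false) (f := fl F) hr (fl_symm F)
        (fun h => absurd h Bool.false_ne_true)
        (fun T' hc hT' => h T' hc fun S hS => ?_) L hL T
      obtain ⟨g, hg1, hg2⟩ := (hT' S hS).half hr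
      refine locally_of (hk ℚ) (fun u => v2 (g u)) (v2_inj.comp hg1) fun u v => ?_
      refine (hg2 u v).trans ?_
      show _ ↔ (v2 (g u) ≠ v2 (g v) ∧ ¬ _)
      rw [v2_half, v2_half, v2_inj.ne_iff, ← fl_iff, v2_layer, v2_layer]
      exact Iff.rfl
  · intro L hL T
    refine Pool.Agent.TH783.MD.main (r := 1) (s := true) (f := fun _ _ => False) le_rfl
      (fun _ _ h => h) (fun _ => rfl) (fun T' hc hT' => h T' hc fun S hS => ?_) L hL T
    obtain ⟨g, hg1, hg2⟩ := (hT' S hS).grid
    exact locally_of (hg ℚ) g hg1 hg2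

end Pool.Agent.Results.MP_5df2c5_lc.MonadicIndependence
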