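import Pool.Agent.V11227.VB.Enc

set_option autoImplicit false

/-!
Vaught's conjecture, perfect-set form, for first-order theories (and Borel classes of structures) in
countable relational languages whose models are preserved when tuples are removed from the relations
of arity at least two.
-/

namespace Pool.Agent.Results.MP_5df2c5_lc.MonotoneClasses

open FirstOrder FirstOrder.Language

variable {L : FirstOrder.Language.{0, 0}}

/-- `S'` arises from `S` by removing (arbitrarily many) tuples from the relations of arity at least
two; the relations of arity at most one are the same. -/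
def Thinner (S' S : L.Structure ℕ) : Prop :=
  (∀ (n : ℕ) (R : L.Relations n) (t : Fin n → ℕ), n < 2 → (S'.RelMap R t ↔ S.RelMap R t)) ∧
    ∀ (n : ℕ) (R : L.Relations n) (t : Fin n → ℕ), S'.RelMap R t → S.RelMap R t

/-- The Borel sets of structures with universe `ℕ`: the sigma-algebra generated by the sets of the
structures in which a given relation holds of a given tuple. -/
@[reducible] def borelSets (L : FirstOrder.Language.{0, 0}) : MeasurableSpace (L.Structure ℕ) :=
  MeasurableSpace.generateFrom
    {U | ∃ (n : ℕ) (R : L.Relations n) (t : Fin n → ℕ), U = {S : L.Structure ℕ | S.RelMap R t}}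

/-- The perfect-set dichotomy for a class `B` of structures with universe `ℕ`: the members of `B`
fall into countably many isomorphism classes, or some continuous family of members of `B`, indexed
by the Cantor space, consists of pairwise non-isomorphic structures. -/
def DichotomyFor (B : Set (L.Structure ℕ)) : Prop :=
  (∃ g : ℕ → L.Structure ℕ, ∀ S ∈ B,
    ∃ n : ℕ, Nonempty (@FirstOrder.Language.Equiv L ℕ ℕ S (g n))) ∨
  (∃ f : (ℕ → Bool) → L.Structure ℕ, (∀ x, f x ∈ B) ∧
    (∀ x y, Nonempty (@FirstOrder.Language.Equiv L ℕ ℕ (f x) (f y)) → x = y) ∧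
    (∀ (n : ℕ) (R : L.Relations n) (a : Fin n → ℕ),
      IsClopen {x : ℕ → Bool | @FirstOrder.Language.Structure.RelMap L ℕ (f x) n R a}) ∧
    (∀ (n : ℕ) (F : L.Functions n) (a : Fin n → ℕ) (b : ℕ),
      IsOpen {x : ℕ → Bool | @FirstOrder.Language.Structure.funMap L ℕ (f x) n F a = b}))

open Pool.Agent.V11227.VB in
private theorem borel_case [L.IsRelational] (hL : Countable L.Symbols) (B : Set (L.Structure ℕ))
    (hB : @MeasurableSet _ (borelSets L) B)
    (hi : ∀ S ∈ B, ∀ S' : L.Structure ℕ,
      Nonempty (@FirstOrder.Language.Equiv L ℕ ℕ S S') → S' ∈ B)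
    (hm : ∀ S ∈ B, ∀ S' : L.Structure ℕ, Thinner S' S → S' ∈ B) : DichotomyFor B := by
  have hc : Countable (Σ n, L.Relations n) := by
    have hL' : Countable ((Σ n, L.Functions n) ⊕ Σ n, L.Relations n) := hL
    exact (Sum.inr_injective (α := Σ n, L.Functions n) (β := Σ n, L.Relations n)).countable
  obtain ⟨e, he⟩ := Countable.exists_injective_nat (Σ n, L.Relations n)
  have hd : Pool.Agent.H533R2.VO.Dich {x : Pool.Agent.H533R2.VO.RS ar0 | Nz e x ∧ dec e x ∈ B} := by
    refine Pool.Agent.TH783.Pol.mono_main ar0 _ ?_ ?_ ?_
    · exact (meas_nz e).inter (meas_dec e hB)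
    · have hs : ∀ x y : Pool.Agent.H533R2.VO.RS ar0, Pool.Agent.H533R2.VO.RIso x y →
          Pool.Agent.H533R2.VO.RIso y x := by
        rintro x y ⟨σ, h⟩
        refine ⟨σ.symm, fun i v => ?_⟩
        rw [← h]
        congr 1
        funext k
        simp
      have key : ∀ x y : Pool.Agent.H533R2.VO.RS ar0, Pool.Agent.H533R2.VO.RIso x y →
          (Nz e x ∧ dec e x ∈ B) → (Nz e y ∧ dec e y ∈ B) := by
        rintro x y h ⟨h1, h2⟩
        refine ⟨fun i hi' t => ?_, hi _ h2 _ (equiv_dec e h)⟩
        obtain ⟨σ, h⟩ := hs x y h
        rw [← h]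
        exact h1 i hi' _
      exact fun x y h => ⟨key x y h, key y x (hs x y h)⟩
    · rintro x ⟨h1, h2⟩ y h3 h4
      refine ⟨fun i hi' t => ?_, hm _ h2 _ ⟨fun n R t hn => ?_, fun n R t => h4 _ _⟩⟩
      · rw [Bool.eq_false_iff]
        intro h5
        have h6 := h4 i t h5
        rw [h1 i hi' t] at h6
        exact Bool.false_ne_true h6
      · show y (ix e R) _ = true ↔ x (ix e R) _ = true
        rw [h3 (ix e R) (by rw [ar_ix]; omega)]
  rcases transfer he hd with h | ⟨f, h1, h2, h3⟩
  · exact Or.inl h
  · exact Or.inr ⟨f, h1, h2, h3, fun n F => isEmptyElim F⟩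

/-- **Theorem.** Let `L` be a countable relational language. (1) The perfect-set dichotomy holds for
every isomorphism-invariant Borel class `B` of `L`-structures with universe `ℕ` such that `B` is
closed under removing tuples from the relations of arity at least two. (2) In particular Vaught's
conjecture, perfect-set form, holds for every first-order `L`-theory `T` whose models on `ℕ` remain
models of `T` when tuples are removed from the relations of arity at least two (for instance, for
the theories axiomatised by sentences in which the symbols of arity at least two occur only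
negatively). -/
theorem result (L : FirstOrder.Language.{0, 0}) (hL : Countable L.Symbols) (hR : L.IsRelational) :
    (∀ B : Set (L.Structure ℕ), @MeasurableSet _ (borelSets L) B →
      (∀ S ∈ B, ∀ S' : L.Structure ℕ,
        Nonempty (@FirstOrder.Language.Equiv L ℕ ℕ S S') → S' ∈ B) →
      (∀ S ∈ B, ∀ S' : L.Structure ℕ, Thinner S' S → S' ∈ B) → DichotomyFor B) ∧
    (∀ T : L.Theory,
      (∀ S S' : L.Structure ℕ, @Theory.Model L ℕ S T → Thinner S' S → @Theory.Model L ℕ S' T) →
      DichotomyFor {S : L.Structure ℕ | @Theory.Model L ℕ S T}) := by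
  refine ⟨fun B hB hi hm => borel_case hL B hB hi hm, fun T hT => ?_⟩
  have hc : Countable (Σ n, L.Relations n) := by
    have hL' : Countable ((Σ n, L.Functions n) ⊕ Σ n, L.Relations n) := hL
    exact (Sum.inr_injective (α := Σ n, L.Functions n) (β := Σ n, L.Relations n)).countable
  refine borel_case hL _ (Pool.Agent.V11227.VB.meas_theory T) (fun S hS S' h => ?_)
    fun S hS S' h => hT S S' hS h
  obtain ⟨g⟩ := h
  let _ := S
  exact (@StrongHomClass.theory_model L ℕ ℕ S S' T _ _ _ g hS)

end Pool.Agent.Results.MP_5df2c5_lc.MonotoneClasses
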